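import Pool.Agent.Y41.SP.Lat

/-!
The compact cover of the surface, the density of the points of `W`, and the connectedness of `W`.
-/

set_option autoImplicit false

open Set Topology Filter
open scoped ContDiff Manifold

namespace Pool.Agent.Y41.SP

open Pool.Agent.Y184.SP

theorem countable_Lam : Lam.Countable := by
  have h : Lam = Set.range (fun p : ℤ × ℤ => (p.1 : ℂ) + (p.2 : ℂ) * Complex.I) := by
    ext x
    constructor
    · rintro ⟨m, n, h⟩
      exact ⟨(m, n), h.symm⟩
    · rintro ⟨⟨m, n⟩, h⟩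
      exact ⟨m, n, h.symm⟩
  rw [h]
  exact Set.countable_range _

theorem W_eq : W = Lamᶜ ×ˢ ({0}ᶜ : Set ℂ) := by
  ext z
  simp [W, Set.mem_prod]

theorem preconn : IsPreconnected W := by
  rw [W_eq]
  have hr : 1 < Module.rank ℝ ℂ := by
    rw [Complex.rank_real_complex]
    exact Cardinal.one_lt_two
  exact ((countable_Lam.isPathConnected_compl_of_one_lt_rank hr).isConnected.isPreconnected).prod
    (((Set.countable_singleton (0 : ℂ)).isPathConnected_compl_of_one_lt_rank
      hr).isConnected.isPreconnected)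

theorem tr_mem (a b : ℂ) (h1 : a ∉ Lam) (h2 : a ≠ -1) (h3 : a * b ∉ Lam) (h4 : b ≠ -1) :
    ∀ j, tr j (a, b) ∈ W := by
  have ha : a ≠ 0 := fun h => h1 (h ▸ zero_mem_Lam)
  have hb : b ≠ 0 := fun h => h3 (by rw [h, mul_zero]; exact zero_mem_Lam)
  have h5 : 1 + a ≠ 0 := fun h => h2 (by linear_combination h)
  have h6 : b + 1 ≠ 0 := fun h => h4 (by linear_combination h)
  have h7 : a * b + 1 ≠ 0 := fun h => h3 ⟨-1, 0, by push_cast; linear_combination h⟩
  intro j
  match j with
  | 0 => exact ⟨h1, hb⟩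
  | 1 => exact ⟨h1, inv_ne_zero hb⟩
  | 2 =>
    refine ⟨h3, ?_⟩
    change b + a * b ≠ 0
    have : b + a * b = b * (1 + a) := by ring
    rw [this]
    exact mul_ne_zero hb h5
  | 3 =>
    refine ⟨h3, ?_⟩
    change a * b ^ 2 + a * b ≠ 0
    have : a * b ^ 2 + a * b = a * b * (b + 1) := by ring
    rw [this]
    exact mul_ne_zero (mul_ne_zero ha hb) h6
  | 4 =>
    refine ⟨h1, ?_⟩
    change a ^ 2 * b + a ≠ 0
    have : a ^ 2 * b + a = a * (a * b + 1) := by ring
    rw [this]
    exact mul_ne_zero ha h7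

theorem dense_tr (j : Fin 5) : Dense {z' | tr j z' ∈ W} := by
  have hA : Dense ((Lam ∪ {-1})ᶜ : Set ℂ) :=
    (countable_Lam.union (Set.countable_singleton _)).dense_compl ℝ
  intro z
  rw [mem_closure_iff_nhds]
  intro U hU
  rw [nhds_prod_eq, Filter.mem_prod_iff] at hU
  obtain ⟨N, hN, N', hN', hsub⟩ := hU
  obtain ⟨a, haN, ha⟩ := mem_closure_iff_nhds.mp (hA z.1) N hN
  have ha1 : a ∉ Lam := fun h => ha (Or.inl h)
  have ha2 : a ≠ -1 := fun h => ha (Or.inr h)
  have ha0 : a ≠ 0 := fun h => ha1 (h ▸ zero_mem_Lam)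
  have hB : Dense (((fun b => a * b) ⁻¹' Lam ∪ {-1})ᶜ : Set ℂ) :=
    ((countable_Lam.preimage_of_injOn (mul_right_injective₀ ha0).injOn).union
      (Set.countable_singleton _)).dense_compl ℝ
  obtain ⟨b, hbN, hb⟩ := mem_closure_iff_nhds.mp (hB z.2) N' hN'
  have hb1 : a * b ∉ Lam := fun h => hb (Or.inl h)
  have hb2 : b ≠ -1 := fun h => hb (Or.inr h)
  exact ⟨(a, b), hsub ⟨haN, hbN⟩, tr_mem a b ha1 ha2 hb1 hb2 j⟩

/-- the compact sets -/
def Cc : Fin 5 → Set E
  | 0 => (Metric.closedBall 0 (3 / 4) ×ˢ Metric.closedBall 0 1) ∩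
      {z | 1 / 16 ≤ ‖z.1‖ ∨ 1 / 16 ≤ ‖z.2 - z.1‖}
  | 1 => Metric.closedBall 0 (3 / 4) ×ˢ Metric.closedBall 0 1
  | 2 => Metric.closedBall 0 1 ×ˢ Metric.closedBall 0 (1 / 16)
  | 3 => (Metric.closedBall 0 1 ×ˢ Metric.closedBall 0 1) ∩ {z | ‖z.1 * z.2‖ ≤ 1 / 16}
  | 4 => Metric.closedBall 0 (1 / 16) ×ˢ Metric.closedBall 0 1

theorem cpt_ball (r s : ℝ) :
    IsCompact ((Metric.closedBall 0 r ×ˢ Metric.closedBall 0 s : Set E)) :=
  (isCompact_closedBall _ _).prod (isCompact_closedBall _ _)

theorem cpt_Cc : ∀ j, IsCompact (Cc j)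
  | 0 => by
      refine (cpt_ball _ _).inter_right ?_
      have h1 : IsClosed {z : E | 1 / 16 ≤ ‖z.1‖} :=
        isClosed_le continuous_const (by fun_prop)
      have h2 : IsClosed {z : E | 1 / 16 ≤ ‖z.2 - z.1‖} :=
        isClosed_le continuous_const (by fun_prop)
      exact h1.union h2
  | 1 => cpt_ball _ _
  | 2 => cpt_ball _ _
  | 3 => (cpt_ball _ _).inter_right (isClosed_le (by fun_prop) continuous_const)
  | 4 => cpt_ball _ _

theorem Cc_sub : ∀ j, Cc j ⊆ V j
  | 0 => by
      rintro z ⟨⟨h1, h2⟩, h3⟩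
      rw [mem_closedBall_zero_iff] at h1 h2
      change z.1 ∉ Lam ∨ z.2 ≠ 0
      by_contra hcon
      push Not at hcon
      obtain ⟨h4, h5⟩ := hcon
      have h6 := eq_zero_of_mem_Lam h4 (by linarith)
      rcases h3 with h3 | h3
      · rw [h6, norm_zero] at h3
        norm_num at h3
      · rw [h6, h5, sub_zero, norm_zero] at h3
        norm_num at h3
  | 1 => fun _ _ => trivial
  | 2 => by
      rintro z ⟨h1, h2⟩
      rw [mem_closedBall_zero_iff] at h1 h2
      refine ⟨?_, by linarith⟩
      rw [norm_mul]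
      have := mul_le_mul h1 h2 (norm_nonneg _) (by norm_num)
      linarith
  | 3 => by
      rintro z ⟨⟨h1, h2⟩, h3⟩
      rw [mem_closedBall_zero_iff] at h1 h2
      have h3' : ‖z.1 * z.2‖ ≤ 1 / 16 := h3
      refine ⟨by linarith, ?_⟩
      have h4 : z.1 * z.2 ^ 2 = z.1 * z.2 * z.2 := by ring
      rw [h4, norm_mul]
      have := mul_le_mul h3' h2 (norm_nonneg _) (by norm_num)
      linarith
  | 4 => by
      rintro z ⟨h1, h2⟩
      rw [mem_closedBall_zero_iff] at h1 h2
      refine ⟨by linarith, ?_⟩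
      rw [norm_mul, norm_pow]
      have h3 : ‖z.1‖ ^ 2 ≤ (1 / 16) ^ 2 := pow_le_pow_left₀ (norm_nonneg _) h1 2
      have := mul_le_mul h3 h2 (norm_nonneg _) (by norm_num)
      norm_num at this
      linarith

/-- the representative near the origin -/
theorem exists_rep (x : ℂ) : ∃ x1 : ℂ, ‖x1‖ ≤ 3 / 4 ∧ frc x1 = frc x := by
  refine ⟨red x, ?_, ?_⟩
  · have h1 : (red x).re = x.re - round x.re := by simp [red]
    have h2 : (red x).im = x.im - round x.im := by simp [red]
    have h3 : |(red x).re| ≤ 1 / 2 := by rw [h1]; exact abs_sub_round _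
    have h4 : |(red x).im| ≤ 1 / 2 := by rw [h2]; exact abs_sub_round _
    have h5 : ‖red x‖ ^ 2 = (red x).re ^ 2 + (red x).im ^ 2 := by
      rw [← Complex.normSq_eq_norm_sq, Complex.normSq_apply]; ring
    have h6 : (red x).re ^ 2 ≤ (1 / 2) ^ 2 := by
      rw [← sq_abs]; exact pow_le_pow_left₀ (abs_nonneg _) h3 2
    have h7 : (red x).im ^ 2 ≤ (1 / 2) ^ 2 := by
      rw [← sq_abs]; exact pow_le_pow_left₀ (abs_nonneg _) h4 2
    nlinarith [norm_nonneg (red x)]
  · apply frc_eq_of
    refine ⟨-round x.re, -round x.im, ?_⟩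
    simp only [red]
    push_cast
    ring

theorem cover0 (p : Pt) (hp : (∃ (x : ℂ) (y : OnePoint ℂ), p = Pt.reg x y ∧ frc x = x ∧
    ¬ (x = 0 ∧ y = ((0 : ℂ) : OnePoint ℂ))) ∨
    ∃ Y Z : OnePoint ℂ, p = Pt.exc Y Z ∧ (Y = ((0 : ℂ) : OnePoint ℂ) ∨ Z = OnePoint.infty)) :
    ∃ j, ∃ z ∈ Cc j, kap0 j z = p := by
  rcases hp with ⟨x, y, rfl, hx, hne⟩ | ⟨Y, Z, rfl, h⟩
  · obtain ⟨x1, hx1, hf⟩ := exists_rep x
    rw [hx] at hf
    induction y using OnePoint.rec with
    | infty =>
      refine ⟨1, (x1, 0), ⟨by simpa using hx1, by simp⟩, ?_⟩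
      simp only [kap0]
      rw [hf, inv1_zero]
    | coe y =>
      by_cases hy : ‖y‖ ≤ 1
      · by_cases h16 : 1 / 16 ≤ ‖x1‖ ∨ 1 / 16 ≤ ‖y - x1‖
        · refine ⟨0, (x1, y), ⟨⟨by simpa using hx1, by simpa using hy⟩, h16⟩, ?_⟩
          simp only [kap0]
          rw [hf]
        · push Not at h16
          obtain ⟨h17, h18⟩ := h16
          set w := y - x1 with hw
          have hyw : y = w + x1 := by rw [hw]; ring
          by_cases h19 : ‖x1‖ ≤ ‖w‖
          · have hw0 : w ≠ 0 := by
              intro h0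
              rw [h0, norm_zero] at h19
              have hx0 : x1 = 0 := norm_le_zero_iff.mp h19
              apply hne
              rw [hyw, h0, hx0, add_zero]
              refine ⟨?_, rfl⟩
              rw [← hf, hx0]
              simp [frc]
            refine ⟨2, (x1 / w, w), ⟨?_, ?_⟩, ?_⟩
            · rw [mem_closedBall_zero_iff, norm_div]
              exact div_le_one_of_le₀ h19 (norm_nonneg _)
            · rw [mem_closedBall_zero_iff]
              exact h18.le
            · simp only [kap0]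
              rw [if_neg hw0, div_mul_cancel₀ _ hw0, hf, hyw]
          · push Not at h19
            have hx0 : x1 ≠ 0 := by
              intro h0
              rw [h0, norm_zero] at h19
              exact absurd h19 (not_lt.mpr (norm_nonneg _))
            by_cases h20 : ‖x1‖ ^ 2 ≤ ‖w‖
            · have hw0 : w ≠ 0 := by
                intro h0
                rw [h0, norm_zero] at h20
                have : 0 < ‖x1‖ ^ 2 := by positivity
                linarith
              have e1 : x1 ^ 2 / w * (w / x1) = x1 := by field_simp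
              have e2 : x1 ^ 2 / w * (w / x1) ^ 2 = w := by field_simp
              refine ⟨3, (x1 ^ 2 / w, w / x1), ⟨⟨?_, ?_⟩, ?_⟩, ?_⟩
              · rw [mem_closedBall_zero_iff, norm_div, norm_pow]
                exact div_le_one_of_le₀ h20 (norm_nonneg _)
              · rw [mem_closedBall_zero_iff, norm_div]
                exact div_le_one_of_le₀ h19.le (norm_nonneg _)
              · change ‖x1 ^ 2 / w * (w / x1)‖ ≤ 1 / 16
                rw [e1]
                exact h17.le
              · simp only [kap0]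
                rw [e1, e2, if_neg hx0, hf, hyw]
            · push Not at h20
              have e2 : x1 ^ 2 * (w / x1 ^ 2) = w := by field_simp
              refine ⟨4, (x1, w / x1 ^ 2), ⟨?_, ?_⟩, ?_⟩
              · rw [mem_closedBall_zero_iff]
                exact h17.le
              · rw [mem_closedBall_zero_iff, norm_div, norm_pow]
                exact div_le_one_of_le₀ h20.le (by positivity)
              · simp only [kap0]
                rw [if_neg hx0, e2, hf, hyw]
      · push Not at hy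
        have hy0 : y ≠ 0 := by
          intro h0
          rw [h0, norm_zero] at hy
          linarith
        refine ⟨1, (x1, y⁻¹), ⟨by simpa using hx1, ?_⟩, ?_⟩
        · rw [mem_closedBall_zero_iff, norm_inv]
          exact inv_le_one_of_one_le₀ hy.le
        · simp only [kap0]
          rw [hf, inv1_coe_of (inv_mul_cancel₀ hy0)]
  · have key : ∀ Y : OnePoint ℂ, ∃ j, ∃ z ∈ Cc j, kap0 j z = Pt.exc Y OnePoint.infty := by
      intro Y
      induction Y using OnePoint.rec with
      | infty =>
        refine ⟨2, (0, 0), ⟨by simp, by simp⟩, ?_⟩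
        simp only [kap0]
        rw [if_pos trivial, inv1_zero]
      | coe Y =>
        by_cases hY : ‖Y‖ ≤ 1
        · refine ⟨3, (0, Y), ⟨⟨by simp, by simpa using hY⟩, ?_⟩, ?_⟩
          · change ‖(0 : ℂ) * Y‖ ≤ 1 / 16
            simp
          · simp only [kap0]
            rw [if_pos (zero_mul _), inv1_zero]
        · push Not at hY
          have hY0 : Y ≠ 0 := by
            intro h0
            rw [h0, norm_zero] at hY
            linarith
          refine ⟨2, (Y⁻¹, 0), ⟨?_, by simp⟩, ?_⟩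
          · rw [mem_closedBall_zero_iff, norm_inv]
            exact inv_le_one_of_one_le₀ hY.le
          · simp only [kap0]
            rw [if_pos trivial, inv1_coe_of (inv_mul_cancel₀ hY0)]
    rcases h with h | h
    · subst h
      induction Z using OnePoint.rec with
      | infty => exact key _
      | coe Z =>
        by_cases hZ : ‖Z‖ ≤ 1
        · refine ⟨4, (0, Z), ⟨by simp, by simpa using hZ⟩, ?_⟩
          simp only [kap0]
          rw [if_pos trivial]
        · push Not at hZ
          have hZ0 : Z ≠ 0 := by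
            intro h0
            rw [h0, norm_zero] at hZ
            linarith
          refine ⟨3, (Z⁻¹, 0), ⟨⟨?_, by simp⟩, ?_⟩, ?_⟩
          · rw [mem_closedBall_zero_iff, norm_inv]
            exact inv_le_one_of_one_le₀ hZ.le
          · change ‖Z⁻¹ * (0 : ℂ)‖ ≤ 1 / 16
            simp
          · simp only [kap0]
            rw [if_pos (mul_zero _), inv1_coe_of (inv_mul_cancel₀ hZ0)]
    · subst h
      exact key _

theorem cpt (hP : StPt) : StCpt := by
  obtain ⟨-, -, hv, -⟩ := hP
  refine ⟨⟨Cc, fun j => ⟨cpt_Cc j, Cc_sub j⟩, ?_⟩, fun j z _ => dense_tr j z, preconn⟩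
  intro p
  obtain ⟨j, z, hz, h⟩ := cover0 p.1 p.2
  refine ⟨j, z, hz, Subtype.ext ?_⟩
  rw [hv j z (Cc_sub j hz), h]

end Pool.Agent.Y41.SP
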