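import Pool.Agent.Y41.SP.Lat

/-!
The equivalence relation given by the coordinate systems is closed.
-/

set_option autoImplicit false

open Set Topology Filter
open scoped ContDiff Manifold

namespace Pool.Agent.Y41.SP

open Pool.Agent.Y184.SP

/-- the coordinate `y` as a point of the projective line -/
noncomputable def Yc : Fin 5 → E → OnePoint ℂ
  | 0 => fun z => ((z.2 : ℂ) : OnePoint ℂ)
  | 1 => fun z => inv1 z.2
  | 2 => fun z => ((z.2 + z.1 * z.2 : ℂ) : OnePoint ℂ)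
  | 3 => fun z => ((z.1 * z.2 ^ 2 + z.1 * z.2 : ℂ) : OnePoint ℂ)
  | 4 => fun z => ((z.1 ^ 2 * z.2 + z.1 : ℂ) : OnePoint ℂ)

/-- the coordinate `x` -/
noncomputable def Xc : Fin 5 → E → ℂ
  | 0 => fun z => z.1
  | 1 => fun z => z.1
  | 2 => fun z => z.1 * z.2
  | 3 => fun z => z.1 * z.2
  | 4 => fun z => z.1

/-- the exceptional points -/
def ex : Fin 5 → E → Prop
  | 0 => fun _ => False
  | 1 => fun _ => False
  | 2 => fun z => z.2 = 0
  | 3 => fun z => z.1 * z.2 = 0
  | 4 => fun z => z.1 = 0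

theorem continuous_Yc : ∀ j, Continuous (Yc j)
  | 0 => OnePoint.continuous_coe.comp continuous_snd
  | 1 => continuous_inv1.comp continuous_snd
  | 2 => OnePoint.continuous_coe.comp (f := fun z : E => z.2 + z.1 * z.2) (by fun_prop)
  | 3 => OnePoint.continuous_coe.comp (f := fun z : E => z.1 * z.2 ^ 2 + z.1 * z.2) (by fun_prop)
  | 4 => OnePoint.continuous_coe.comp (f := fun z : E => z.1 ^ 2 * z.2 + z.1) (by fun_prop)

theorem continuous_Xc : ∀ j, Continuous (Xc j)
  | 0 => continuous_fst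
  | 1 => continuous_fst
  | 2 => by simp only [Xc]; fun_prop
  | 3 => by simp only [Xc]; fun_prop
  | 4 => continuous_fst

theorem kap0_reg : ∀ j z, ¬ ex j z → kap0 j z = Pt.reg (frc (Xc j z)) (Yc j z)
  | 0, _, _ => rfl
  | 1, _, _ => rfl
  | 2, _, h => by simp only [ex] at h; simp [kap0, Xc, Yc, h]
  | 3, _, h => by simp only [ex] at h; simp only [kap0, Xc, Yc]; rw [if_neg h]
  | 4, _, h => by simp only [ex] at h; simp [kap0, Xc, Yc, h]

theorem kap0_exc : ∀ j z, ex j z → (∃ Y Z, kap0 j z = Pt.exc Y Z) ∧ Xc j z = 0 ∧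
    Yc j z = ((0 : ℂ) : OnePoint ℂ)
  | 0, _, h => h.elim
  | 1, _, h => h.elim
  | 2, z, h => by
      simp only [ex] at h
      exact ⟨⟨_, _, by simp only [kap0]; rw [if_pos h]⟩, by simp [Xc, h], by simp [Yc, h]⟩
  | 3, z, h => by
      simp only [ex] at h
      refine ⟨⟨_, _, by simp only [kap0]; rw [if_pos h]⟩, by simpa [Xc] using h, ?_⟩
      have : z.1 * z.2 ^ 2 + z.1 * z.2 = 0 := by
        have : z.1 * z.2 ^ 2 + z.1 * z.2 = z.1 * z.2 * (z.2 + 1) := by ring
        rw [this, h, zero_mul]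
      simp [Yc, this]
  | 4, z, h => by
      simp only [ex] at h
      exact ⟨⟨_, _, by simp only [kap0]; rw [if_pos h]⟩, by simp [Xc, h], by simp [Yc, h]⟩

theorem ex_of : ∀ j, ∀ z ∈ V j, Xc j z ∈ Lam → Yc j z = ((0 : ℂ) : OnePoint ℂ) → ex j z
  | 0, z, hz, hx, hy => by
      simp only [V, Set.mem_ofPred_eq] at hz
      simp only [Xc] at hx
      simp only [Yc] at hy
      have hy' : z.2 = 0 := OnePoint.coe_injective hy
      rcases hz with hz | hz
      · exact absurd hx hz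
      · exact absurd hy' hz
  | 1, z, hz, hx, hy => by
      simp only [Yc] at hy
      have := inv1_eq_coe hy
      simp at this
  | 2, z, hz, hx, hy => by
      simp only [V, Set.mem_ofPred_eq] at hz
      simp only [Xc] at hx
      simp only [Yc] at hy
      have hy' : z.2 + z.1 * z.2 = 0 := OnePoint.coe_injective hy
      have h0 := eq_zero_of_mem_Lam hx (by linarith [hz.1])
      simp only [ex]
      rw [h0, add_zero] at hy'
      exact hy'
  | 3, z, hz, hx, hy => by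
      simp only [V, Set.mem_ofPred_eq] at hz
      simp only [Xc] at hx
      have h0 := eq_zero_of_mem_Lam hx (by linarith [hz.1])
      simpa only [ex] using h0
  | 4, z, hz, hx, hy => by
      simp only [V, Set.mem_ofPred_eq] at hz
      simp only [Xc] at hx
      have h0 := eq_zero_of_mem_Lam hx (by linarith [hz.1])
      simpa only [ex] using h0

theorem inv_of_eq {i j : Fin 5} {t t' : E} (h : kap0 i t = kap0 j t') :
    Xc i t - Xc j t' ∈ Lam ∧ Yc i t = Yc j t' := by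
  by_cases h1 : ex i t
  · obtain ⟨⟨Y, Z, h2⟩, h3, h4⟩ := kap0_exc i t h1
    by_cases h1' : ex j t'
    · obtain ⟨⟨Y', Z', h2'⟩, h3', h4'⟩ := kap0_exc j t' h1'
      rw [h3, h3', h4, h4']
      simp [zero_mem_Lam]
    · rw [h2, kap0_reg j t' h1'] at h
      exact absurd h (by simp)
  · by_cases h1' : ex j t'
    · obtain ⟨⟨Y', Z', h2'⟩, h3', h4'⟩ := kap0_exc j t' h1'
      rw [h2', kap0_reg i t h1] at h
      exact absurd h (by simp)
    · rw [kap0_reg i t h1, kap0_reg j t' h1'] at h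
      injection h with ha hb
      exact ⟨frc_eq_iff.mp ha, hb⟩

theorem eq_of_frequently {Y : Type*} [TopologicalSpace Y] [T2Space Y] {A : Type*}
    [TopologicalSpace A] {f g : A → Y} {a : A} (hf : Continuous f) (hg : Continuous g)
    (h : ∃ᶠ p in 𝓝 a, f p = g p) : f a = g a := by
  have h1 : IsClosed {p | f p = g p} := isClosed_eq hf hg
  exact h1.closure_subset (mem_closure_iff_frequently.mpr h)

/-- the pairs of exceptional points -/
theorem e22 {t t' : E} (h : kap0 2 t = kap0 2 t') (ht : t ∈ V 2) (ht' : t' ∈ V 2) : t = t' := by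
  simp only [V, Set.mem_ofPred_eq] at ht ht'
  simp only [kap0] at h
  split_ifs at h with h1 h2 h2
  · injection h with ha hb
    exact Prod.ext (inv1_inj ha) (by rw [h1, h2])
  · injection h with ha hb
    have hx := frc_small ha ht.1 ht'.1
    have hy := OnePoint.coe_injective hb
    rw [hx] at hy
    have hy2 : t.2 = t'.2 := add_right_cancel hy
    rw [hy2] at hx
    exact Prod.ext (mul_right_cancel₀ h2 hx) hy2

theorem e33 {t t' : E} (h : kap0 3 t = kap0 3 t') (ht : t ∈ V 3) (ht' : t' ∈ V 3) : t = t' := by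
  simp only [V, Set.mem_ofPred_eq] at ht ht'
  simp only [kap0] at h
  split_ifs at h with h1 h2 h2
  · injection h with ha hb
    exact Prod.ext (inv1_inj hb) (OnePoint.coe_injective ha)
  · injection h with ha hb
    have hx := frc_small ha ht.1 ht'.1
    have hy := OnePoint.coe_injective hb
    rw [hx] at hy
    have hy2 : t.1 * t.2 ^ 2 = t'.1 * t'.2 ^ 2 := add_right_cancel hy
    have hy3 : t'.1 * t'.2 * t.2 = t'.1 * t'.2 * t'.2 := by
      rw [← hx]
      linear_combination hy2 - t'.2 * hx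
    have hy4 : t.2 = t'.2 := mul_left_cancel₀ h2 hy3
    rw [hy4] at hx
    have h5 : t'.2 ≠ 0 := right_ne_zero_of_mul h2
    exact Prod.ext (mul_right_cancel₀ h5 hx) hy4

theorem e44 {t t' : E} (h : kap0 4 t = kap0 4 t') (ht : t ∈ V 4) (ht' : t' ∈ V 4) : t = t' := by
  simp only [V, Set.mem_ofPred_eq] at ht ht'
  simp only [kap0] at h
  split_ifs at h with h1 h2 h2
  · injection h with ha hb
    exact Prod.ext (by rw [h1, h2]) (OnePoint.coe_injective hb)
  · injection h with ha hb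
    have hx := frc_small ha ht.1 ht'.1
    have hy := OnePoint.coe_injective hb
    rw [hx] at hy
    have hy2 : t'.1 ^ 2 * t.2 = t'.1 ^ 2 * t'.2 := add_right_cancel hy
    exact Prod.ext hx (mul_left_cancel₀ (pow_ne_zero 2 h2) hy2)

theorem e23 {t t' : E} (h : kap0 2 t = kap0 3 t') (ht : t ∈ V 2) (ht' : t' ∈ V 3) :
    t.1 * t'.2 = 1 ∧ t.2 = t'.1 * t'.2 ^ 2 := by
  simp only [V, Set.mem_ofPred_eq] at ht ht'
  simp only [kap0] at h
  split_ifs at h with h1 h2 h2
  · injection h with ha hb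
    have h3 := inv1_eq_coe ha
    have h4 := inv1_eq_infty hb.symm
    refine ⟨h3, ?_⟩
    rw [h1, h4, zero_mul]
  · injection h with ha hb
    have hx := frc_small ha ht.1 ht'.1
    have hy := OnePoint.coe_injective hb
    rw [hx] at hy
    have hy2 : t.2 = t'.1 * t'.2 ^ 2 := add_right_cancel hy
    refine ⟨?_, hy2⟩
    apply mul_right_cancel₀ h1
    linear_combination t'.2 * hx - hy2

theorem e34 {t t' : E} (h : kap0 3 t = kap0 4 t') (ht : t ∈ V 3) (ht' : t' ∈ V 4) :
    t.1 * t'.2 = 1 ∧ t'.1 = t.1 * t.2 := by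
  simp only [V, Set.mem_ofPred_eq] at ht ht'
  simp only [kap0] at h
  split_ifs at h with h1 h2 h2
  · injection h with ha hb
    have h3 := inv1_eq_coe hb
    exact ⟨h3, by rw [h1, h2]⟩
  · injection h with ha hb
    have hx := frc_small ha ht.1 ht'.1
    have hy := OnePoint.coe_injective hb
    rw [← hx] at hy
    have hy2 : t.1 * t.2 ^ 2 = (t.1 * t.2) ^ 2 * t'.2 := add_right_cancel hy
    refine ⟨?_, hx.symm⟩
    have h5 : t.2 ≠ 0 := right_ne_zero_of_mul h1
    apply mul_right_cancel₀ (mul_ne_zero h1 h5)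
    linear_combination -hy2

theorem e24 {t t' : E} (h : kap0 2 t = kap0 4 t') (ht : t ∈ V 2) (ht' : t' ∈ V 4) :
    t.1 ^ 2 * t.2 * t'.2 = 1 := by
  simp only [V, Set.mem_ofPred_eq] at ht ht'
  simp only [kap0] at h
  split_ifs at h with h1 h2 h2
  · injection h with ha hb
    exact absurd hb.symm (OnePoint.coe_ne_infty _)
  · injection h with ha hb
    have hx := frc_small ha ht.1 ht'.1
    have hy := OnePoint.coe_injective hb
    rw [← hx] at hy
    have hy2 : t.2 = (t.1 * t.2) ^ 2 * t'.2 := add_right_cancel hy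
    apply mul_right_cancel₀ h1
    linear_combination -hy2

/-- the limit of equal pairs -/
def Clo (i j : Fin 5) : Prop := ∀ z ∈ V i, ∀ z' ∈ V j,
  (∃ᶠ p : E × E in 𝓝 (z, z'), p.1 ∈ V i ∧ p.2 ∈ V j ∧ kap0 i p.1 = kap0 j p.2) →
  ex i z → ex j z' → kap0 i z = kap0 j z'

theorem Clo.symm {i j : Fin 5} (h : Clo i j) : Clo j i := by
  intro z hz z' hz' hf h1 h2
  refine (h z' hz' z hz ?_ h2 h1).symm
  have h3 : Tendsto (Prod.swap : E × E → E × E) (𝓝 (z, z')) (𝓝 (z', z)) :=
    continuous_swap.continuousAt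
  refine h3.frequently (hf.mono ?_)
  rintro ⟨a, b⟩ ⟨ha, hb, hab⟩
  exact ⟨hb, ha, hab.symm⟩

theorem clo_self (i : Fin 5) (h : ∀ {t t' : E}, kap0 i t = kap0 i t' → t ∈ V i → t' ∈ V i → t = t') :
    Clo i i := by
  intro z hz z' hz' hf h1 h2
  have h3 : ∃ᶠ p : E × E in 𝓝 (z, z'), p.1 = p.2 := hf.mono fun p hp => h hp.2.2 hp.1 hp.2.1
  have h4 : (z, z').1 = (z, z').2 := eq_of_frequently continuous_fst continuous_snd h3
  exact congrArg (kap0 i) h4

theorem clo23 : Clo 2 3 := by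
  intro z hz z' hz' hf h1 h2
  have h3 : ∃ᶠ p : E × E in 𝓝 (z, z'), p.1.1 * p.2.2 = 1 :=
    hf.mono fun p hp => (e23 hp.2.2 hp.1 hp.2.1).1
  have h4 : ∃ᶠ p : E × E in 𝓝 (z, z'), p.1.2 = p.2.1 * p.2.2 ^ 2 :=
    hf.mono fun p hp => (e23 hp.2.2 hp.1 hp.2.1).2
  have h5 : z.1 * z'.2 = 1 :=
    eq_of_frequently (f := fun p : E × E => p.1.1 * p.2.2) (by fun_prop) continuous_const h3
  have h6 : z.2 = z'.1 * z'.2 ^ 2 :=
    eq_of_frequently (f := fun p : E × E => p.1.2) (g := fun p : E × E => p.2.1 * p.2.2 ^ 2)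
      (by fun_prop) (by fun_prop) h4
  simp only [ex] at h1 h2
  have h7 : z'.2 ≠ 0 := right_ne_zero_of_mul_eq_one h5
  have h8 : z'.1 = 0 := by
    rcases mul_eq_zero.mp h2 with h | h
    · exact h
    · exact absurd h h7
  simp only [kap0]
  rw [if_pos h1, if_pos h2, h8, inv1_zero, inv1_coe_of h5]

theorem clo34 : Clo 3 4 := by
  intro z hz z' hz' hf h1 h2
  have h3 : ∃ᶠ p : E × E in 𝓝 (z, z'), p.1.1 * p.2.2 = 1 :=
    hf.mono fun p hp => (e34 hp.2.2 hp.1 hp.2.1).1
  have h5 : z.1 * z'.2 = 1 :=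
    eq_of_frequently (f := fun p : E × E => p.1.1 * p.2.2) (by fun_prop) continuous_const h3
  simp only [ex] at h1 h2
  have h7 : z.1 ≠ 0 := left_ne_zero_of_mul_eq_one h5
  have h8 : z.2 = 0 := by
    rcases mul_eq_zero.mp h1 with h | h
    · exact absurd h h7
    · exact h
  simp only [kap0]
  rw [if_pos h1, if_pos h2, h8, inv1_coe_of h5]

theorem clo24 : Clo 2 4 := by
  intro z hz z' hz' hf h1 h2
  have h3 : ∃ᶠ p : E × E in 𝓝 (z, z'), p.1.1 ^ 2 * p.1.2 * p.2.2 = 1 :=
    hf.mono fun p hp => (e24 hp.2.2 hp.1 hp.2.1)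
  have h5 : z.1 ^ 2 * z.2 * z'.2 = 1 :=
    eq_of_frequently (f := fun p : E × E => p.1.1 ^ 2 * p.1.2 * p.2.2) (by fun_prop)
      continuous_const h3
  simp only [ex] at h1
  rw [h1] at h5
  simp at h5

theorem clo : ∀ i j, Clo i j
  | 0, _ => fun _ _ _ _ _ h _ => h.elim
  | 1, _ => fun _ _ _ _ _ h _ => h.elim
  | 2, 0 => fun _ _ _ _ _ _ h => h.elim
  | 2, 1 => fun _ _ _ _ _ _ h => h.elim
  | 3, 0 => fun _ _ _ _ _ _ h => h.elim
  | 3, 1 => fun _ _ _ _ _ _ h => h.elim
  | 4, 0 => fun _ _ _ _ _ _ h => h.elim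
  | 4, 1 => fun _ _ _ _ _ _ h => h.elim
  | 2, 2 => clo_self 2 e22
  | 3, 3 => clo_self 3 e33
  | 4, 4 => clo_self 4 e44
  | 2, 3 => clo23
  | 3, 2 => clo23.symm
  | 3, 4 => clo34
  | 4, 3 => clo34.symm
  | 2, 4 => clo24
  | 4, 2 => clo24.symm

theorem closed (i j : Fin 5) (z : E) (hz : z ∈ V i) (z' : E) (hz' : z' ∈ V j)
    (hf : ∃ᶠ p : E × E in 𝓝 (z, z'), p.1 ∈ V i ∧ p.2 ∈ V j ∧ kap0 i p.1 = kap0 j p.2) :
    kap0 i z = kap0 j z' := by
  have h1 : Xc i z - Xc j z' ∈ Lam := by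
    have h2 : IsClosed {p : E × E | Xc i p.1 - Xc j p.2 ∈ Lam} :=
      isClosed_Lam.preimage (((continuous_Xc i).comp continuous_fst).sub
        ((continuous_Xc j).comp continuous_snd))
    have h3 : (z, z') ∈ closure {p : E × E | Xc i p.1 - Xc j p.2 ∈ Lam} :=
      mem_closure_iff_frequently.mpr (hf.mono fun p hp => (inv_of_eq hp.2.2).1)
    exact h2.closure_subset h3
  have h2 : Yc i z = Yc j z' :=
    eq_of_frequently (f := fun p : E × E => Yc i p.1) (g := fun p : E × E => Yc j p.2)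
      ((continuous_Yc i).comp continuous_fst) ((continuous_Yc j).comp continuous_snd)
      (hf.mono fun p hp => (inv_of_eq hp.2.2).2)
  by_cases h3 : ex i z
  · obtain ⟨-, h4, h5⟩ := kap0_exc i z h3
    have h6 : ex j z' := by
      apply ex_of j z' hz'
      · rw [h4, zero_sub] at h1
        have := neg_mem_Lam h1
        rwa [neg_neg] at this
      · rw [← h2, h5]
    exact clo i j z hz z' hz' hf h3 h6
  · by_cases h6 : ex j z'
    · obtain ⟨-, h4, h5⟩ := kap0_exc j z' h6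
      exact absurd (ex_of i z hz (by rwa [h4, sub_zero] at h1) (by rw [h2, h5])) h3
    · rw [kap0_reg i z h3, kap0_reg j z' h6, frc_eq_iff.mpr h1, h2]

theorem sep (hP : StPt) : StSep := by
  obtain ⟨hO, -, hv, -⟩ := hP
  intro i j z hz z' hz' hne
  by_contra hcon
  push Not at hcon
  apply hne
  apply Subtype.ext
  rw [hv i z hz, hv j z' hz']
  apply closed i j z hz z' hz'
  rw [nhds_prod_eq]
  rw [Filter.frequently_iff]
  intro U hU
  rw [Filter.mem_prod_iff] at hU
  obtain ⟨N, hN, N', hN', hsub⟩ := hU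
  obtain ⟨t, ht, t', ht', heq⟩ := hcon (N ∩ V i) (inter_mem hN ((hO i).mem_nhds hz))
    (N' ∩ V j) (inter_mem hN' ((hO j).mem_nhds hz'))
  refine ⟨(t, t'), hsub ⟨ht.1, ht'.1⟩, ht.2, ht'.2, ?_⟩
  rw [← hv i t ht.2, ← hv j t' ht'.2, heq]

end Pool.Agent.Y41.SP
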