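import Pool.Agent.Y184.SP.Base2

/-!
The lattice, the representatives, and the points of the surface: elementary lemmas.
-/

set_option autoImplicit false

open Set Topology Filter
open scoped ContDiff Manifold

namespace Pool.Agent.Y41.SP

open Pool.Agent.Y184.SP

theorem mem_Lam_iff (x : ℂ) : x ∈ Lam ↔ (∃ m : ℤ, (m : ℝ) = x.re) ∧ ∃ n : ℤ, (n : ℝ) = x.im := by
  constructor
  · rintro ⟨m, n, rfl⟩
    exact ⟨⟨m, by simp⟩, ⟨n, by simp⟩⟩
  · rintro ⟨⟨m, hm⟩, ⟨n, hn⟩⟩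
    refine ⟨m, n, ?_⟩
    apply Complex.ext
    · simp [← hm]
    · simp [← hn]

theorem isClosed_Lam : IsClosed Lam := by
  have h1 : IsClosed (Complex.re ⁻¹' (Set.range ((↑) : ℤ → ℝ))) :=
    Int.isClosedEmbedding_coe_real.isClosed_range.preimage Complex.continuous_re
  have h2 : IsClosed (Complex.im ⁻¹' (Set.range ((↑) : ℤ → ℝ))) :=
    Int.isClosedEmbedding_coe_real.isClosed_range.preimage Complex.continuous_im
  have : Lam = (Complex.re ⁻¹' (Set.range ((↑) : ℤ → ℝ))) ∩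
      (Complex.im ⁻¹' (Set.range ((↑) : ℤ → ℝ))) := by
    ext x
    rw [mem_Lam_iff]
    rfl
  rw [this]
  exact h1.inter h2

theorem zero_mem_Lam : (0 : ℂ) ∈ Lam := ⟨0, 0, by simp⟩

theorem neg_mem_Lam {x : ℂ} (h : x ∈ Lam) : -x ∈ Lam := by
  obtain ⟨m, n, rfl⟩ := h
  exact ⟨-m, -n, by push_cast; ring⟩

theorem add_mem_Lam {x y : ℂ} (h : x ∈ Lam) (h' : y ∈ Lam) : x + y ∈ Lam := by
  obtain ⟨m, n, rfl⟩ := h
  obtain ⟨m', n', rfl⟩ := h'
  exact ⟨m + m', n + n', by push_cast; ring⟩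

theorem sub_mem_Lam {x y : ℂ} (h : x ∈ Lam) (h' : y ∈ Lam) : x - y ∈ Lam := by
  rw [sub_eq_add_neg]
  exact add_mem_Lam h (neg_mem_Lam h')

theorem eq_zero_of_mem_Lam {x : ℂ} (h : x ∈ Lam) (hx : ‖x‖ < 1) : x = 0 := by
  rw [mem_Lam_iff] at h
  obtain ⟨⟨m, hm⟩, ⟨n, hn⟩⟩ := h
  have h1 : |x.re| < 1 := lt_of_le_of_lt (Complex.abs_re_le_norm x) hx
  have h2 : |x.im| < 1 := lt_of_le_of_lt (Complex.abs_im_le_norm x) hx
  rw [← hm] at h1
  rw [← hn] at h2
  have h1' : |m| < 1 := by exact_mod_cast h1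
  have h2' : |n| < 1 := by exact_mod_cast h2
  have hm0 : m = 0 := Int.abs_lt_one_iff.mp h1'
  have hn0 : n = 0 := Int.abs_lt_one_iff.mp h2'
  apply Complex.ext
  · rw [← hm, hm0]; simp
  · rw [← hn, hn0]; simp

theorem frc_re (x : ℂ) : (frc x).re = Int.fract x.re := by simp [frc]

theorem frc_im (x : ℂ) : (frc x).im = Int.fract x.im := by simp [frc]

theorem frc_sub (x : ℂ) : frc x - x ∈ Lam := by
  rw [mem_Lam_iff]
  refine ⟨⟨-⌊x.re⌋, ?_⟩, ⟨-⌊x.im⌋, ?_⟩⟩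
  · rw [Complex.sub_re, frc_re, Int.fract]
    push_cast
    ring
  · rw [Complex.sub_im, frc_im, Int.fract]
    push_cast
    ring

theorem frc_eq_of {x x' : ℂ} (h : x - x' ∈ Lam) : frc x = frc x' := by
  rw [mem_Lam_iff] at h
  obtain ⟨⟨m, hm⟩, ⟨n, hn⟩⟩ := h
  have h1 : x.re = x'.re + m := by rw [Complex.sub_re] at hm; linarith
  have h2 : x.im = x'.im + n := by rw [Complex.sub_im] at hn; linarith
  apply Complex.ext
  · rw [frc_re, frc_re, h1, Int.fract_add_intCast]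
  · rw [frc_im, frc_im, h2, Int.fract_add_intCast]

theorem sub_mem_of_frc_eq {x x' : ℂ} (h : frc x = frc x') : x - x' ∈ Lam := by
  have h1 := frc_sub x
  have h2 := frc_sub x'
  have : x - x' = (frc x' - x') - (frc x - x) := by rw [h]; ring
  rw [this]
  exact sub_mem_Lam h2 h1

theorem frc_eq_iff {x x' : ℂ} : frc x = frc x' ↔ x - x' ∈ Lam := ⟨sub_mem_of_frc_eq, frc_eq_of⟩

theorem frc_small {x x' : ℂ} (h : frc x = frc x') (hx : ‖x‖ < 1 / 8) (hx' : ‖x'‖ < 1 / 8) :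
    x = x' := by
  have h1 := sub_mem_of_frc_eq h
  have h2 : ‖x - x'‖ < 1 := by
    have := norm_sub_le x x'
    linarith
  exact sub_eq_zero.mp (eq_zero_of_mem_Lam h1 h2)

theorem inv1_zero : inv1 0 = OnePoint.infty := by simp [inv1]

theorem inv1_of_ne {ξ : ℂ} (h : ξ ≠ 0) : inv1 ξ = ((ξ⁻¹ : ℂ) : OnePoint ℂ) := by simp [inv1, h]

theorem inv1_eq_coe {ξ η : ℂ} (h : inv1 ξ = (η : OnePoint ℂ)) : ξ * η = 1 := by
  by_cases h0 : ξ = 0
  · rw [h0, inv1_zero] at h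
    exact absurd h (OnePoint.infty_ne_coe η)
  · rw [inv1_of_ne h0] at h
    rw [← OnePoint.coe_injective h]
    exact mul_inv_cancel₀ h0

theorem inv1_coe_of {ξ η : ℂ} (h : ξ * η = 1) : inv1 ξ = (η : OnePoint ℂ) := by
  have h0 : ξ ≠ 0 := left_ne_zero_of_mul_eq_one h
  rw [inv1_of_ne h0]
  congr 1
  exact (eq_inv_of_mul_eq_one_right h).symm

theorem inv1_eq_infty {ξ : ℂ} (h : inv1 ξ = OnePoint.infty) : ξ = 0 := by
  by_contra h0
  rw [inv1_of_ne h0] at h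
  exact (OnePoint.coe_ne_infty _) h

theorem inv1_inj {ξ ξ' : ℂ} (h : inv1 ξ = inv1 ξ') : ξ = ξ' := by
  by_cases h0 : ξ' = 0
  · rw [h0, inv1_zero] at h
    rw [h0, inv1_eq_infty h]
  · rw [inv1_of_ne h0] at h
    have := inv1_eq_coe h
    field_simp at this
    exact this

theorem continuous_inv1 : Continuous inv1 := by
  rw [continuous_iff_continuousAt]
  intro ξ
  by_cases h0 : ξ = 0
  · subst h0
    rw [ContinuousAt, inv1_zero]
    have h1 : Tendsto inv1 (𝓝[≠] (0 : ℂ)) (𝓝 OnePoint.infty) := by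
      have h2 : Tendsto (fun ξ : ℂ => ((ξ⁻¹ : ℂ) : OnePoint ℂ)) (𝓝[≠] 0) (𝓝 OnePoint.infty) := by
        refine OnePoint.tendsto_coe_infty.comp ?_
        rw [Filter.coclosedCompact_eq_cocompact, ← Metric.cobounded_eq_cocompact]
        exact Filter.tendsto_inv₀_nhdsNE_zero
      refine h2.congr' ?_
      filter_upwards [self_mem_nhdsWithin] with t ht
      exact (inv1_of_ne ht).symm
    rw [← nhdsNE_sup_pure, tendsto_sup]
    refine ⟨h1, ?_⟩
    rw [tendsto_pure_left]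
    intro s hs
    rw [inv1_zero]
    exact mem_of_mem_nhds hs
  · have h1 : ContinuousAt (fun ξ : ℂ => ((ξ⁻¹ : ℂ) : OnePoint ℂ)) ξ :=
      OnePoint.continuous_coe.continuousAt.comp (continuousAt_inv₀ h0)
    refine h1.congr ?_
    filter_upwards [isOpen_ne.mem_nhds h0] with t ht
    exact (inv1_of_ne ht).symm

end Pool.Agent.Y41.SP
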